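import Pool.Agent.Helper41.LD5.Defs2

/-!
# Project LD5, block NU: the times of the terms `A₀ x ^ (e n / P)`, the phases
-/

set_option autoImplicit false

namespace Pool.Agent.Helper44.LD5

open Set Filter Topology
open Pool.Agent.Helper41.LD (Kk Kk_ge)
open Pool.Agent.Helper41.LD3 (ll ll_pos ll_succ ll_anti ll_le)
open Pool.Agent.Helper41.LD4
open Pool.Agent.Helper41.LD5

section

variable {κ : ℕ} {A₀ x ℓ₀ : ℝ} {P e : ℕ}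

theorem fp_nn (hA : 0 < A₀) {m : ℕ} (hx : 0 < x) : 0 ≤ fp A₀ P m x := by
  unfold fp
  positivity

/-- `N` further exponents -/
theorem fp_add (hA : 0 < A₀) (hP : 1 ≤ P) (hx : 1 < x) (m N : ℕ) :
    fp A₀ P m x * (x ^ (1 / (P : ℝ))) ^ N ≤ fp A₀ P (m + N) x := by
  have hx0 : 0 < x := by linarith
  have hP0 : (0 : ℝ) < P := by exact_mod_cast hP
  unfold fp
  have e1 : x ^ (((m + N : ℕ) : ℝ) / P - 1) = x ^ ((m : ℝ) / P - 1) * (x ^ (1 / (P : ℝ))) ^ N := by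
    rw [← Real.rpow_natCast (x ^ (1 / (P : ℝ))) N, ← Real.rpow_mul hx0.le, ← Real.rpow_add hx0]
    congr 1
    push_cast
    field_simp
    ring
  rw [e1]
  have h1 : (m : ℝ) / P ≤ ((m + N : ℕ) : ℝ) / P := by
    refine div_le_div_of_nonneg_right ?_ hP0.le
    exact_mod_cast Nat.le_add_right m N
  have h2 : 0 ≤ x ^ ((m : ℝ) / P - 1) * (x ^ (1 / (P : ℝ))) ^ N := by positivity
  calc A₀ * ((m : ℝ) / P) * x ^ ((m : ℝ) / P - 1) * (x ^ (1 / (P : ℝ))) ^ N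
      = A₀ * ((m : ℝ) / P) * (x ^ ((m : ℝ) / P - 1) * (x ^ (1 / (P : ℝ))) ^ N) := by ring
    _ ≤ A₀ * (((m + N : ℕ) : ℝ) / P) * (x ^ ((m : ℝ) / P - 1) * (x ^ (1 / (P : ℝ))) ^ N) := by gcongr

theorem fp_big (hA : 0 < A₀) (hP : 1 ≤ P) (hx : 1 < x) {m : ℕ} (hm : P ≤ m) : A₀ * ((m : ℝ) / P) ≤ fp A₀ P m x := by
  have hP0 : (0 : ℝ) < P := by exact_mod_cast hP
  unfold fp
  refine le_mul_of_one_le_right (by positivity) (Real.one_le_rpow hx.le ?_)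
  rw [sub_nonneg, one_le_div hP0]
  exact_mod_cast hm

theorem nuP_nonempty (hA : 0 < A₀) (hP : 1 ≤ P) (he : 1 ≤ e) (hx : 1 < x) {ℓ : ℝ} (hℓ : 0 < ℓ) :
    {n : ℕ | 1 ≤ fp A₀ P (e * n) x * ℓ}.Nonempty := by
  have hP0 : (0 : ℝ) < P := by exact_mod_cast hP
  obtain ⟨n, hn⟩ := exists_nat_ge (max (P : ℝ) (P / (A₀ * ℓ)))
  have h1 : (P : ℝ) ≤ n := (le_max_left _ _).trans hn
  have h2 : (P : ℝ) / (A₀ * ℓ) ≤ n := (le_max_right _ _).trans hn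
  have h1' : P ≤ n := by exact_mod_cast h1
  have h3 : P ≤ e * n := h1'.trans (Nat.le_mul_of_pos_left n he)
  refine ⟨n, ?_⟩
  show 1 ≤ fp A₀ P (e * n) x * ℓ
  have h4 := fp_big hA hP hx h3
  have h5 : (n : ℝ) ≤ ((e * n : ℕ) : ℝ) := by exact_mod_cast Nat.le_mul_of_pos_left n he
  rw [div_le_iff₀ (by positivity)] at h2
  calc (1 : ℝ) ≤ n * (A₀ * ℓ) / P := by rw [one_le_div hP0]; exact h2
    _ = A₀ * ((n : ℝ) / P) * ℓ := by ring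
    _ ≤ A₀ * (((e * n : ℕ) : ℝ) / P) * ℓ := by gcongr
    _ ≤ fp A₀ P (e * n) x * ℓ := by gcongr

theorem nuP_spec (hA : 0 < A₀) (hP : 1 ≤ P) (he : 1 ≤ e) (hx : 1 < x) {ℓ : ℝ} (hℓ : 0 < ℓ) :
    1 ≤ fp A₀ P (e * nuP A₀ P e x ℓ) x * ℓ := Nat.sInf_mem (nuP_nonempty hA hP he hx hℓ)

theorem nuP_mono (hA : 0 < A₀) (hP : 1 ≤ P) (he : 1 ≤ e) (hx : 1 < x) (hℓ₀ : 0 < ℓ₀) (K₀ : ℕ) : Monotone fun k => nuP A₀ P e x (ll κ K₀ ℓ₀ k) := by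
  intro k k' h
  refine Nat.sInf_le ?_
  have h1 := nuP_spec hA hP he hx (ll_pos (κ := κ) hℓ₀ K₀ k')
  exact h1.trans (mul_le_mul_of_nonneg_left (ll_anti hℓ₀ K₀ h) (fp_nn hA (by linarith)))

theorem nuP_succ (hA : 0 < A₀) (hP : 1 ≤ P) (he : 1 ≤ e) (hx : 1 < x) (hℓ₀ : 0 < ℓ₀) (K₀ : ℕ) :
    ∃ C₁ : ℕ, ∀ k, nuP A₀ P e x (ll κ K₀ ℓ₀ (k + 1)) ≤ nuP A₀ P e x (ll κ K₀ ℓ₀ k) + C₁ * Kk K₀ k ^ (2 * κ + 1) := by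
  have hx0 : 0 < x := by linarith
  have hP0 : (0 : ℝ) < P := by exact_mod_cast hP
  have hβ : 1 < x ^ (1 / (P : ℝ)) := Real.one_lt_rpow hx (by positivity)
  obtain ⟨C₁, hC₁⟩ := pow_unbounded_of_one_lt 2 hβ
  refine ⟨C₁, fun k => Nat.sInf_le ?_⟩
  have hl := ll_pos (κ := κ) hℓ₀ K₀ k
  have h1 := nuP_spec hA hP he hx hl
  obtain ⟨n, hn⟩ : ∃ n, n = nuP A₀ P e x (ll κ K₀ ℓ₀ k) := ⟨_, rfl⟩
  obtain ⟨Λ, hΛ⟩ : ∃ Λ, Λ = Kk K₀ k ^ (2 * κ + 1) := ⟨_, rfl⟩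
  rw [← hn] at h1 ⊢
  rw [← hΛ]
  have h2 : (2 : ℝ) ^ Λ ≤ (x ^ (1 / (P : ℝ))) ^ (e * (C₁ * Λ)) := by
    calc (2 : ℝ) ^ Λ ≤ ((x ^ (1 / (P : ℝ))) ^ C₁) ^ Λ := pow_le_pow_left₀ (by norm_num) hC₁.le _
      _ = (x ^ (1 / (P : ℝ))) ^ (C₁ * Λ) := by rw [← pow_mul]
      _ ≤ (x ^ (1 / (P : ℝ))) ^ (e * (C₁ * Λ)) := pow_le_pow_right₀ hβ.le (Nat.le_mul_of_pos_left _ he)
  have hp : (0 : ℝ) < 2 ^ Λ := by positivity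
  have h3 := fp_add hA hP hx (e * n) (e * (C₁ * Λ))
  show 1 ≤ fp A₀ P (e * (n + C₁ * Λ)) x * ll κ K₀ ℓ₀ (k + 1)
  rw [ll_succ, ← hΛ, Nat.mul_add]
  calc (1 : ℝ) ≤ (fp A₀ P (e * n) x * ll κ K₀ ℓ₀ k) * ((x ^ (1 / (P : ℝ))) ^ (e * (C₁ * Λ)) / 2 ^ Λ) :=
        one_le_mul_of_one_le_of_one_le h1 ((one_le_div hp).2 h2)
    _ = fp A₀ P (e * n) x * (x ^ (1 / (P : ℝ))) ^ (e * (C₁ * Λ)) * (ll κ K₀ ℓ₀ k / 2 ^ Λ) := by ring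
    _ ≤ _ := mul_le_mul_of_nonneg_right h3 (by positivity)

theorem fp_le_two (hA : 0 < A₀) (hP : 1 ≤ P) (hx : 1 < x) (e : ℕ) : ∃ C : ℕ, ∀ n : ℕ, fp A₀ P (e * n) x ≤ 2 ^ (C * (n + 1)) := by
  have hx0 : 0 < x := by linarith
  have hP0 : (0 : ℝ) < P := by exact_mod_cast hP
  have hP1 : (1 : ℝ) ≤ P := by exact_mod_cast hP
  obtain ⟨c, hc⟩ := pow_unbounded_of_one_lt (max A₀ (max (e : ℝ) (x ^ e))) (show (1 : ℝ) < 2 by norm_num)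
  have h1 : A₀ ≤ 2 ^ c := (le_max_left _ _).trans hc.le
  have h2 : (e : ℝ) ≤ 2 ^ c := ((le_max_left _ _).trans (le_max_right _ _)).trans hc.le
  have h3 : x ^ e ≤ 2 ^ c := ((le_max_right _ _).trans (le_max_right _ _)).trans hc.le
  refine ⟨2 * c + 1, fun n => ?_⟩
  have h4 : ((e * n : ℕ) : ℝ) / P ≤ e * n := by
    rw [div_le_iff₀ hP0]
    push_cast
    exact le_mul_of_one_le_right (by positivity) hP1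
  have h5 : x ^ (((e * n : ℕ) : ℝ) / P - 1) ≤ (x ^ e) ^ n := by
    rw [← pow_mul, ← Real.rpow_natCast]
    refine Real.rpow_le_rpow_of_exponent_le hx.le ?_
    push_cast at h4 ⊢
    linarith
  have h6 : (n : ℝ) ≤ 2 ^ n := by exact_mod_cast Nat.lt_two_pow_self.le
  unfold fp
  calc A₀ * (((e * n : ℕ) : ℝ) / P) * x ^ (((e * n : ℕ) : ℝ) / P - 1)
      ≤ A₀ * (e * n) * (x ^ e) ^ n := by gcongr
    _ ≤ 2 ^ c * (2 ^ c * 2 ^ n) * (2 ^ c) ^ n := by gcongr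
    _ = 2 ^ (c + (c + n) + c * n) := by rw [← pow_mul, ← pow_add, ← pow_add, ← pow_add]
    _ ≤ 2 ^ ((2 * c + 1) * (n + 1)) := by
        refine pow_le_pow_right₀ (by norm_num) ?_
        have h7 : (2 * c + 1) * (n + 1) = c + (c + n) + c * n + (c * n + 1) := by ring
        omega

theorem nuP_ge (hA : 0 < A₀) (hP : 1 ≤ P) (he : 1 ≤ e) (hx : 1 < x) (hℓ₀ : 0 < ℓ₀) (hℓ₀1 : ℓ₀ ≤ 1) {K₀ : ℕ} (hK₀ : 1 ≤ K₀) :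
    ∃ C₂ : ℕ, ∀ k, k ≤ C₂ * (nuP A₀ P e x (ll κ K₀ ℓ₀ k) + 1) := by
  obtain ⟨C₂, hC₂⟩ := fp_le_two hA hP hx e
  refine ⟨C₂, fun k => ?_⟩
  have h1 := nuP_spec hA hP he hx (ll_pos (κ := κ) hℓ₀ K₀ k)
  have h2 := ll_le (κ := κ) hℓ₀ hK₀ k
  have h3 := hC₂ (nuP A₀ P e x (ll κ K₀ ℓ₀ k))
  have hhalf : (0 : ℝ) < (1 / 2) ^ k := by positivity
  have h4 : (1 : ℝ) ≤ 2 ^ (C₂ * (nuP A₀ P e x (ll κ K₀ ℓ₀ k) + 1)) * (1 / 2) ^ k := by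
    refine h1.trans (mul_le_mul h3 ?_ (ll_pos hℓ₀ K₀ k).le (by positivity))
    exact h2.trans (mul_le_of_le_one_left hhalf.le hℓ₀1)
  have h5 : (2 : ℝ) ^ k ≤ 2 ^ (C₂ * (nuP A₀ P e x (ll κ K₀ ℓ₀ k) + 1)) := by
    have h6 := mul_le_mul_of_nonneg_right h4 (show (0 : ℝ) ≤ 2 ^ k by positivity)
    rw [one_mul, mul_assoc, ← mul_pow] at h6
    norm_num at h6
    exact h6
  exact (pow_le_pow_iff_right₀ (show (1 : ℝ) < 2 by norm_num)).1 h5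

/-- one block: `tp_block_le` -/
theorem tp_block {F : Fam} (hF : F.Ok) {a : ℝ} (ha : F.x₁ ≤ a) {ℓ : ℝ} (hℓ : 0 < ℓ) (u Λ : ℕ) :
    tp F.A₀ F.P F.Q u a (ℓ / 2 ^ Λ) ≤ tp F.A₀ F.P F.Q u a ℓ + F.CF * Λ := by
  have ha1 : 1 < a := hF.h1.trans_le ha
  have hP0 : (0 : ℝ) < F.P := by exact_mod_cast hF.hP
  have hQ : 1 ≤ F.Q := hF.H.base.hQ
  have hCF := hF.H.base.hCF F.g (Nat.lt_succ_self _)
  have e1 : F.τ5 F.g = F.x₁ ^ (1 / (F.P : ℝ)) := by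
    unfold Fam.τ5
    rw [if_neg (lt_irrefl _)]
  rw [e1] at hCF
  have hne : {j : ℕ | 1 ≤ fp F.A₀ F.P (F.Q * j + u) a * ℓ}.Nonempty := by
    obtain ⟨n, hn⟩ := nuP_nonempty hF.hA hF.hP hQ ha1 hℓ
    refine ⟨n, ?_⟩
    have h1 := fp_add hF.hA hF.hP ha1 (F.Q * n) u
    have h2 : 1 ≤ (a ^ (1 / (F.P : ℝ))) ^ u := one_le_pow₀ (Real.one_le_rpow ha1.le (by positivity))
    have h3 : 0 ≤ fp F.A₀ F.P (F.Q * n) a := fp_nn hF.hA (by linarith)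
    have h4 : fp F.A₀ F.P (F.Q * n) a ≤ fp F.A₀ F.P (F.Q * n + u) a := (le_mul_of_one_le_right h3 h2).trans h1
    exact le_trans hn (mul_le_mul_of_nonneg_right h4 hℓ.le)
  have hs : 1 ≤ fp F.A₀ F.P (F.Q * tp F.A₀ F.P F.Q u a ℓ + u) a * ℓ := Nat.sInf_mem hne
  refine Nat.sInf_le ?_
  obtain ⟨n, hn⟩ : ∃ n, n = tp F.A₀ F.P F.Q u a ℓ := ⟨_, rfl⟩
  rw [← hn] at hs ⊢
  have h2 : (2 : ℝ) ^ Λ ≤ (a ^ (1 / (F.P : ℝ))) ^ (F.Q * (F.CF * Λ)) := by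
    have h3 : F.x₁ ^ (1 / (F.P : ℝ)) ≤ a ^ (1 / (F.P : ℝ)) :=
      Real.rpow_le_rpow (by linarith [hF.h1]) ha (by positivity)
    have h4 : (0 : ℝ) ≤ F.x₁ ^ (1 / (F.P : ℝ)) := Real.rpow_nonneg (by linarith [hF.h1]) _
    calc (2 : ℝ) ^ Λ ≤ (((F.x₁ ^ (1 / (F.P : ℝ))) ^ F.Q) ^ F.CF) ^ Λ := pow_le_pow_left₀ (by norm_num) hCF _
      _ = (F.x₁ ^ (1 / (F.P : ℝ))) ^ (F.Q * (F.CF * Λ)) := by rw [← pow_mul, ← pow_mul]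
      _ ≤ (a ^ (1 / (F.P : ℝ))) ^ (F.Q * (F.CF * Λ)) := pow_le_pow_left₀ h4 h3 _
  have hp : (0 : ℝ) < 2 ^ Λ := by positivity
  have h3 := fp_add hF.hA hF.hP ha1 (F.Q * n + u) (F.Q * (F.CF * Λ))
  show 1 ≤ fp F.A₀ F.P (F.Q * (n + F.CF * Λ) + u) a * (ℓ / 2 ^ Λ)
  have e2 : F.Q * (n + F.CF * Λ) + u = F.Q * n + u + F.Q * (F.CF * Λ) := by ring
  rw [e2]
  calc (1 : ℝ) ≤ (fp F.A₀ F.P (F.Q * n + u) a * ℓ) * ((a ^ (1 / (F.P : ℝ))) ^ (F.Q * (F.CF * Λ)) / 2 ^ Λ) :=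
        one_le_mul_of_one_le_of_one_le hs ((one_le_div hp).2 h2)
    _ = fp F.A₀ F.P (F.Q * n + u) a * (a ^ (1 / (F.P : ℝ))) ^ (F.Q * (F.CF * Λ)) * (ℓ / 2 ^ Λ) := by ring
    _ ≤ _ := mul_le_mul_of_nonneg_right h3 (by positivity)

theorem Kk_ph (K₀ : ℕ) {σ k : ℕ} (h1 : 2 ^ σ - 1 ≤ k) (h2 : k < 2 ^ (σ + 1) - 1) : Kk K₀ k = K₀ + σ := by
  unfold Kk
  have h3 : 1 ≤ 2 ^ σ := Nat.one_le_two_pow
  congr 1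
  rw [Nat.log_eq_iff (Or.inr ⟨by norm_num, by omega⟩)]
  constructor
  · omega
  · omega

/-- the number of steps of a power class inside a phase -/
theorem tp_phase {F : Fam} (hF : F.Ok) {a : ℝ} (ha : F.x₁ ≤ a) {ℓ₀ : ℝ} (hℓ₀ : 0 < ℓ₀) (K₀ : ℕ) (u : ℕ) {σ k : ℕ} (h1 : 2 ^ σ - 1 ≤ k)
    (h2 : k ≤ 2 ^ (σ + 1) - 1) :
    tp F.A₀ F.P F.Q u a (ll κ K₀ ℓ₀ k) - tp F.A₀ F.P F.Q u a (ll κ K₀ ℓ₀ (2 ^ σ - 1)) ≤ 2 ^ (K₀ + σ + 1) * (F.G * (K₀ + σ) ^ (2 * κ + 1)) := by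
  have key : ∀ d, 2 ^ σ - 1 + d ≤ 2 ^ (σ + 1) - 1 → tp F.A₀ F.P F.Q u a (ll κ K₀ ℓ₀ (2 ^ σ - 1 + d)) ≤
      tp F.A₀ F.P F.Q u a (ll κ K₀ ℓ₀ (2 ^ σ - 1)) + d * (F.CF * (K₀ + σ) ^ (2 * κ + 1)) := by
    intro d
    induction d with
    | zero => intro _; simp
    | succ d ih =>
      intro hd
      have h3 := tp_block hF ha (ll_pos (κ := κ) hℓ₀ K₀ (2 ^ σ - 1 + d)) u ((K₀ + σ) ^ (2 * κ + 1))
      have e1 : ll κ K₀ ℓ₀ (2 ^ σ - 1 + d + 1) = ll κ K₀ ℓ₀ (2 ^ σ - 1 + d) / 2 ^ ((K₀ + σ) ^ (2 * κ + 1)) := by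
        rw [ll_succ, Kk_ph K₀ (Nat.le_add_right _ _) (by omega)]
      rw [← e1] at h3
      have h4 := ih (by omega)
      have h5 : (d + 1) * (F.CF * (K₀ + σ) ^ (2 * κ + 1)) = d * (F.CF * (K₀ + σ) ^ (2 * κ + 1)) + F.CF * (K₀ + σ) ^ (2 * κ + 1) := by ring
      rw [h5, ← add_assoc (2 ^ σ - 1)]
      omega
  obtain ⟨d, rfl⟩ := Nat.exists_eq_add_of_le h1
  have h3 := key d h2
  have h4 : d ≤ 2 ^ (K₀ + σ + 1) := by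
    have h5 : d ≤ 2 ^ σ := by
      have h6 : 1 ≤ 2 ^ σ := Nat.one_le_two_pow
      rw [pow_succ] at h2
      omega
    exact h5.trans (Nat.pow_le_pow_right (by norm_num) (by omega))
  have h5 : F.CF * (K₀ + σ) ^ (2 * κ + 1) ≤ F.G * (K₀ + σ) ^ (2 * κ + 1) := Nat.mul_le_mul_right _ hF.H.base.G_ge.2.1
  have h6 := Nat.mul_le_mul h4 h5
  omega

end

end Pool.Agent.Helper44.LD5
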